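import Pool.Agent.Lib.MP_869d3b_nt.Final
import Pool.Agent.Lib.MP_869d3b_nt.K.Kaut
import Pool.Agent.Lib.MP_869d3b_nt.L.Bridge

/-!
# MP_869d3b_nt : a `2`-adic CM-type with infinite `X(N)`

Let `k = ℚ(√-7, √2145)`, a quartic CM field in which `2` splits completely, and let `Σ` be the set
of the primes of `k` which contain `p0 = (1 + √-7) / 2`. Then `Σ` is a `2`-adic CM-type, `k` has
exactly one `Σ`-ramified `ℤ_2`-extension `N`, and `X(N)` is infinite.
-/

set_option autoImplicit false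

open NumberField IsDedekindDomain Pool.Agent.Lib.MP_869d3b_nt

namespace Pool.Agent.Results.MP_869d3b_nt.InfiniteX

/-- There are a CM field `k`, a `2`-adic CM-type `Σ` of `k` (every prime of the maximal real
subfield above `2` splits in `k`) and a unique `Σ`-ramified `ℤ_2`-extension `N` of `k`, for which
`X(N)` is infinite. -/
theorem result :
    ∃ (k : Type) (_ : Field k) (_ : NumberField k) (_ : IsCMField k) (s r : k) (p0 : 𝓞 k),
      s ^ 2 = -7 ∧ r ^ 2 = 2145 ∧ IntermediateField.adjoin ℚ {s, r} = ⊤ ∧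
      2 * (p0 : k) = 1 + s ∧
      RealPrimesSplit 2 k ∧
      IsCMType 2 k {v : HeightOneSpectrum (𝓞 k) | p0 ∈ v.asIdeal} ∧
      ∃ N : IntermediateField k (AlgebraicClosure k),
        (∀ N' : IntermediateField k (AlgebraicClosure k),
          (IsZpExtension 2 N' ∧
            UnramifiedOutside {v : HeightOneSpectrum (𝓞 k) | p0 ∈ v.asIdeal} N') ↔ N' = N) ∧
        Infinite (X 2 N (AlgebraicClosure k)) :=
  final_of (fun Ω _ _ => p_R1 Ω) (fun Ω _ _ => p_loc Ω) (fun Ω _ _ => p_L1 Ω)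
    (fun Ω _ _ => p_L3 Ω) (fun Ω _ _ => p_L10 Ω) (fun Ω _ _ => p_V2 Ω)
    (p_Kaut p_Krep (p_Kgal p_Kind p_Krep))

end Pool.Agent.Results.MP_869d3b_nt.InfiniteX
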